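import Mathlib

set_option autoImplicit false

namespace Pool.Agent.Results.MP_f16d24_co.Yes

open Finset

/-- Finite form of the homothetic copy theorem, with bounded integer dilation. -/
theorem homothety (S : Finset ℚ) (κ : Type) [Finite κ] :
    ∃ (X : Finset ℚ) (L : ℕ), ∀ C : ℚ → κ, ∃ (l : ℕ) (a : ℚ) (k : κ), 0 < l ∧ l ≤ L ∧
      ∀ s ∈ S, (l : ℚ) * s + a ∈ X ∧ C ((l : ℚ) * s + a) = k := by
  classical
  obtain ⟨ι, _inst, hι⟩ := Combinatorics.Line.exists_mono_in_high_dimension S κ
  refine ⟨Finset.univ.image (fun v : ι → S => ∑ i, (v i : ℚ)), Fintype.card ι, fun C => ?_⟩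
  obtain ⟨l, c, hl⟩ := hι (fun v => C (∑ i, (v i : ℚ)))
  set T : Finset ι := Finset.univ.filter (fun i => l.idxFun i = none) with hT
  have key : ∀ s : S, ∑ i, ((l s i : S) : ℚ) =
      (T.card : ℚ) * s + ∑ i ∈ Tᶜ, ((l.idxFun i).map (fun z : S => (z : ℚ))).getD 0 := by
    intro s
    rw [← Finset.sum_add_sum_compl T]
    congr 1
    · rw [Finset.sum_congr rfl (g := fun _ => (s : ℚ))]
      · simp
      · intro i hi
        have : l.idxFun i = none := by simpa [hT] using hi
        rw [l.apply_none _ _ this]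
    · apply Finset.sum_congr rfl
      intro i hi
      have : l.idxFun i ≠ none := by simpa [hT] using hi
      obtain ⟨y, hy⟩ := Option.ne_none_iff_exists.mp this
      simp [← hy]
  refine ⟨T.card, ∑ i ∈ Tᶜ, ((l.idxFun i).map (fun z : S => (z : ℚ))).getD 0, c, ?_, ?_, ?_⟩
  · obtain ⟨i, hi⟩ := l.proper
    exact Finset.card_pos.mpr ⟨i, by simp [hT, hi]⟩
  · exact Finset.card_le_univ _
  · intro s hs
    have k1 := key ⟨s, hs⟩
    simp only at k1
    rw [← k1]
    exact ⟨Finset.mem_image.mpr ⟨l ⟨s, hs⟩, Finset.mem_univ _, rfl⟩, hl ⟨s, hs⟩⟩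

/-- Monochromatic corners with legs `m` and `1 / m`. -/
theorem corner (κ : Type) [Finite κ] (r : ℕ) :
    ∃ X Y : Finset ℚ, (∀ y ∈ Y, 0 < y) ∧ ∀ (c : ℚ → ℚ → κ) (K : Finset κ), K.card ≤ r →
      (∀ x ∈ X, ∀ y ∈ Y, c x y ∈ K) →
      ∃ x y m : ℚ, 0 < m ∧ c (x + m) y = c x y ∧ c x (y + 1 / m) = c x y := by
  classical
  induction r with
  | zero =>
    refine ⟨{0}, {1}, by simp, fun c K hK h => ?_⟩
    have h0 : K = ∅ := Finset.card_eq_zero.mp (by omega)
    have := h 0 (by simp) 1 (by simp)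
    simp [h0] at this
  | succ r ih =>
    obtain ⟨X, Y, hY, H⟩ := ih
    obtain ⟨X', L, hX'⟩ := homothety (X ∪ (X ×ˢ Y).image (fun p => p.1 + 1 / p.2)) κ
    refine ⟨X', insert 1 ((Y ×ˢ Finset.Icc 1 L).image (fun p => 1 + p.1 / (p.2 : ℚ))), ?_, ?_⟩
    · intro y hy
      rcases Finset.mem_insert.mp hy with rfl | hy
      · norm_num
      · obtain ⟨p, hp, rfl⟩ := Finset.mem_image.mp hy
        have := hY p.1 (Finset.mem_product.mp hp).1
        positivity
    · intro c K hK h
      obtain ⟨l, a, k, hl0, hlL, hS⟩ := hX' (fun x => c x 1)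
      have hl : (0 : ℚ) < l := by exact_mod_cast hl0
      by_cases hred : ∃ x ∈ X, ∃ y ∈ Y, c (l * x + a) (1 + y / l) = k
      · obtain ⟨x, hx, y, hy, hk⟩ := hred
        have hy0 := hY y hy
        have e1 := (hS x (Finset.mem_union_left _ hx)).2
        have e2 := (hS (x + 1 / y) (Finset.mem_union_right _
          (Finset.mem_image.mpr ⟨(x, y), Finset.mem_product.mpr ⟨hx, hy⟩, rfl⟩))).2
        refine ⟨l * x + a, 1, l / y, by positivity, ?_, ?_⟩
        · rw [e1, ← e2]
          congr 1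
          field_simp
          ring
        · rw [e1, ← hk]
          congr 1
          field_simp
      · push Not at hred
        by_cases hXe : X.Nonempty
        swap
        · obtain ⟨x, y, m, hm, h1, h2⟩ := H c ∅ (by simp)
            (fun x hx => absurd ⟨x, hx⟩ hXe)
          exact ⟨x, y, m, hm, h1, h2⟩
        obtain ⟨x0, hx0⟩ := hXe
        have hkK : k ∈ K := by
          have := hS x0 (Finset.mem_union_left _ hx0)
          rw [← this.2]
          exact h _ this.1 1 (Finset.mem_insert_self _ _)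
        obtain ⟨x, y, m, hm, h1, h2⟩ := H (fun x y => c (l * x + a) (1 + y / l)) (K.erase k)
          (by rw [Finset.card_erase_of_mem hkK]; omega)
          (fun x hx y hy => Finset.mem_erase.mpr ⟨hred x hx y hy,
            h _ (hS x (Finset.mem_union_left _ hx)).1 _ (Finset.mem_insert_of_mem
              (Finset.mem_image.mpr ⟨(y, l), Finset.mem_product.mpr
                ⟨hy, Finset.mem_Icc.mpr ⟨hl0, hlL⟩⟩, rfl⟩))⟩)
        refine ⟨l * x + a, 1 + y / l, l * m, by positivity, ?_, ?_⟩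
        · rw [← h1]
          congr 1
          ring
        · rw [← h2]
          congr 1
          field_simp
          ring

theorem result :
    ∀ (r : ℕ) (c : ℚ → Fin r), ∃ x d : ℚ, 0 < d ∧ d ≠ 1 ∧
      c (x + d) = c x ∧ c (x + 1 / d) = c x := by
  classical
  intro r c
  obtain ⟨X, Y, -, H⟩ := corner (Fin r × Bool) (Fintype.card (Fin r × Bool))
  obtain ⟨x, y, m, hm, h1, h2⟩ := H
    (fun x y => (c (x + y), decide (⌊x + y⌋ % 2 = 0))) Finset.univ (by simp) (by simp)
  simp only [Prod.mk.injEq] at h1 h2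
  refine ⟨x + y, m, hm, ?_, ?_, ?_⟩
  · rintro rfl
    have h3 := h1.2
    have e : x + 1 + y = (x + y) + 1 := by ring
    rw [e, Int.floor_add_one] at h3
    simp only [decide_eq_decide] at h3
    omega
  · rw [← h1.1]
    congr 1
    ring
  · rw [← h2.1]
    congr 1
    ring

end Pool.Agent.Results.MP_f16d24_co.Yes
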